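import Pool.Agent.Run7.h35.EX.Stm

set_option autoImplicit false

namespace Run7.h781.EX

open Run7.h35.EX

theorem t_HOM (hL : S_LIFT) : S_HOM := by
  intro S0 S1 S2 a b ha hab hc ⟨S', q, hq, T, ⟨e⟩⟩
  haveI : IsClosed (LinearMap.range b.toLinearMap : Set (l1 S0)) := hc
  let R : Submodule ℝ (l1 S0) := LinearMap.range b.toLinearMap
  haveI : CompleteSpace R := hc.completeSpace_coe
  let π : l1 S0 →L[ℝ] (l1 S0 ⧸ R) := R.mkQL
  have hπ : Function.Surjective π := Submodule.mkQ_surjective R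
  have hπ0 : ∀ x, π x = 0 ↔ x ∈ R := fun x => Submodule.Quotient.mk_eq_zero R
  obtain ⟨u, hu⟩ := hL S' (l1 S0) (l1 S0 ⧸ R) π q hπ
  obtain ⟨v, hv⟩ := hL S0 (l1 S') (l1 S0 ⧸ R) q π hq
  have hu' : ∀ x, π (u x) = q x := fun x => by rw [← hu]; rfl
  have hv' : ∀ x, q (v x) = π x := fun x => by rw [← hv]; rfl
  -- `b` as a map onto its range
  let b' : l1 S1 →L[ℝ] R := b.codRestrict R (fun x => ⟨x, rfl⟩)
  have hb' : Function.Surjective b' := by
    rintro ⟨_, x, rfl⟩
    exact ⟨x, rfl⟩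
  -- `h0`
  let c0 : l1 S0 →L[ℝ] R := (ContinuousLinearMap.id ℝ (l1 S0) - u.comp v).codRestrict R (by
    intro x
    rw [← hπ0]
    show π (x - u (v x)) = 0
    rw [map_sub, hu', hv', sub_self])
  obtain ⟨h0, hh0⟩ := hL S0 (l1 S1) R b' c0 hb'
  have hh0' : ∀ x, b (h0 x) = x - u (v x) := by
    intro x
    have h := congrArg (fun f : l1 S0 →L[ℝ] R => ((f x : R) : l1 S0)) hh0
    exact h
  -- `u1`
  let c1 : l1 T →L[ℝ] R := (u.comp ((Submodule.subtypeL (LinearMap.ker q.toLinearMap)).comp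
      (e.symm : l1 T →L[ℝ] LinearMap.ker q.toLinearMap))).codRestrict R (by
    intro t
    rw [← hπ0]
    show π (u (e.symm t : l1 S')) = 0
    rw [hu']
    exact (e.symm t).2)
  obtain ⟨u1, hu1⟩ := hL T (l1 S1) R b' c1 hb'
  have hu1' : ∀ t, b (u1 t) = u (e.symm t : l1 S') := by
    intro t
    have h := congrArg (fun f : l1 T →L[ℝ] R => ((f t : R) : l1 S0)) hu1
    exact h
  -- `v b` as a map to the kernel
  let vb : l1 S1 →L[ℝ] LinearMap.ker q.toLinearMap := (v.comp b).codRestrict _ (by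
    intro x
    show q (v (b x)) = 0
    rw [hv', hπ0]
    exact ⟨x, rfl⟩)
  have hvb : ∀ x, ((vb x : LinearMap.ker q.toLinearMap) : l1 S') = v (b x) := fun x => rfl
  let w : l1 S1 →L[ℝ] l1 S1 := ContinuousLinearMap.id ℝ _ -
    u1.comp ((e : LinearMap.ker q.toLinearMap →L[ℝ] l1 T).comp vb) - h0.comp b
  have hw : ∀ x, w x = x - u1 (e (vb x)) - h0 (b x) := fun x => rfl
  have hbw : ∀ x, b (w x) = 0 := by
    intro x
    rw [hw, map_sub, map_sub, hu1', hh0', e.symm_apply_apply, hvb]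
    abel
  -- `a` is an isomorphism onto its range
  have hcl : IsClosed (Set.range a) := by
    have h : (Set.range a) = (LinearMap.ker b.toLinearMap : Set (l1 S1)) := by
      rw [← hab]; rfl
    rw [h]
    exact b.isClosed_ker
  let ae := a.equivRange ha hcl
  let w' : l1 S1 →L[ℝ] LinearMap.range a.toLinearMap := w.codRestrict _ (by
    intro x
    rw [hab]
    exact hbw x)
  refine ⟨(ae.symm : LinearMap.range a.toLinearMap →L[ℝ] l1 S2).comp w', ?_⟩
  ext1 y
  have hba : b (a y) = 0 := by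
    have : a y ∈ LinearMap.ker b.toLinearMap := by rw [← hab]; exact ⟨y, rfl⟩
    exact this
  have hwa : w (a y) = a y := by
    have h1 : vb (a y) = 0 := by
      apply Subtype.ext
      rw [hvb, hba, map_zero]
      rfl
    rw [hw, h1, hba, map_zero, map_zero, map_zero, sub_zero, sub_zero]
  show ae.symm (w' (a y)) = y
  rw [ContinuousLinearEquiv.symm_apply_eq]
  apply Subtype.ext
  show w (a y) = a y
  exact hwa

end Run7.h781.EX
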